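import Pool.Agent.Helper37.RQ.Defs
import Pool.Agent.Helper76.Jef.Plancherel

/-! # Row B3 (helper13): Plancherel and polar coordinates. -/

set_option autoImplicit false

namespace Pool.Agent.Helper37.RQ

open MeasureTheory Set Filter Topology
open scoped ENNReal FourierTransform

/-- the Fourier transform of the indicator of `E` -/
noncomputable def b3F {m : ℕ} (E : Set (Fin m → ℝ)) (ξ : Fin m → ℝ) : ℂ :=
  ∫ x in E, Complex.exp (((-2 * Real.pi * ∑ i, ξ i * x i : ℝ) : ℂ) * Complex.I)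

theorem b3_norm_exp (t : ℝ) : ‖Complex.exp (((t : ℝ) : ℂ) * Complex.I)‖ = 1 :=
  Complex.norm_exp_ofReal_mul_I t

theorem b3_cont {m : ℕ} {E : Set (Fin m → ℝ)} (hv : volume E ≠ ∞) : Continuous (b3F E) := by
  unfold b3F
  have : IsFiniteMeasure ((volume : Measure (Fin m → ℝ)).restrict E) :=
    isFiniteMeasure_restrict.2 hv
  refine continuous_of_dominated (bound := fun _ => (1 : ℝ)) ?_ ?_ (integrable_const _) ?_
  · intro ξ
    have : Continuous fun x : Fin m → ℝ =>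
        Complex.exp (((-2 * Real.pi * ∑ i, ξ i * x i : ℝ) : ℂ) * Complex.I) := by fun_prop
    exact this.aestronglyMeasurable
  · intro ξ
    exact Eventually.of_forall fun x => (b3_norm_exp _).le
  · refine Eventually.of_forall fun x => ?_
    fun_prop

theorem b3_le {m : ℕ} {E : Set (Fin m → ℝ)} (ξ : Fin m → ℝ) :
    ‖b3F E ξ‖ ≤ (volume E).toReal := by
  unfold b3F
  refine (norm_integral_le_integral_norm _).trans (le_of_eq ?_)
  simp only [b3_norm_exp]
  rw [integral_const, smul_eq_mul, mul_one, measureReal_restrict_apply_univ]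
  rfl

theorem b3_chf {n : ℕ} {E : Set (Fin (n + 1) → ℝ)} (a : Fin n → ℝ) (σ : ℝ) :
    chf ((volume.restrict E).map (lform a)) σ = b3F E (Fin.cons σ (σ • a)) := by
  unfold chf b3F
  have hl : Continuous (lform a) := by
    unfold lform
    fun_prop
  rw [integral_map hl.measurable.aemeasurable]
  · congr 1
    funext x
    congr 3
    rw [Fin.sum_univ_succ]
    simp only [Fin.cons_zero, Fin.cons_succ, Pi.smul_apply, smul_eq_mul, lform]
    rw [mul_assoc (-2 * Real.pi) σ, mul_add, Finset.mul_sum]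
    congr 2
    refine Finset.sum_congr rfl fun i _ => ?_
    ring
  · have : Continuous fun s : ℝ =>
        Complex.exp (((-2 * Real.pi * σ * s : ℝ) : ℂ) * Complex.I) := by fun_prop
    exact this.aestronglyMeasurable

/-- Plancherel -/
theorem b3_L2 {m : ℕ} {E : Set (Fin m → ℝ)} (hE : MeasurableSet E) (hv : volume E ≠ ∞) :
    ∫⁻ ξ, ‖b3F E ξ‖ₑ ^ 2 < ∞ := by
  have hp := PiLp.volume_preserving_toLp (Fin m)
  have hemb : MeasurableEmbedding (@WithLp.toLp 2 (Fin m → ℝ)) :=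
    (MeasurableEquiv.toLp 2 (Fin m → ℝ)).measurableEmbedding
  set E' : Set (EuclideanSpace ℝ (Fin m)) := WithLp.ofLp ⁻¹' E with hE'
  have hE'm : MeasurableSet E' := (PiLp.volume_preserving_ofLp (Fin m)).measurable hE
  have hE'v : volume E' ≠ ∞ := by
    rw [hE', (PiLp.volume_preserving_ofLp (Fin m)).measure_preimage hE.nullMeasurableSet]
    exact hv
  set f : EuclideanSpace ℝ (Fin m) → ℂ := E'.indicator (fun _ => (1 : ℂ)) with hf
  have hfi : Integrable f := (integrable_indicator_iff hE'm).2 (integrableOn_const hE'v)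
  have hf2 : MemLp f 2 := memLp_indicator_const 2 hE'm 1 (Or.inr hE'v)
  have hFc : Continuous (𝓕 f) := VectorFourier.fourierIntegral_continuous
    Real.continuous_fourierChar (innerSL ℝ).continuous₂ hfi
  have hPl := Pool.Agent.Helper76.Jef.plancherel f hfi hf2
  have hFin : eLpNorm (𝓕 f) 2 volume < ∞ := by
    rw [hPl]; exact hf2.2
  have hFin2 : ∫⁻ w, ‖𝓕 f w‖ₑ ^ 2 < ∞ := by
    have h := (eLpNorm_lt_top_iff_lintegral_rpow_enorm_lt_top (p := 2) (by norm_num)
      (by norm_num) (f := 𝓕 f) (μ := volume)).1 hFin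
    simpa using h
  have hkey : ∀ ξ : Fin m → ℝ, 𝓕 f (WithLp.toLp 2 ξ) = b3F E ξ := by
    intro ξ
    rw [Real.fourier_eq', ← hp.integral_comp hemb]
    unfold b3F
    rw [← integral_indicator hE]
    congr 1
    funext x
    by_cases hx : x ∈ E
    · rw [indicator_of_mem hx, hf, indicator_of_mem (show WithLp.toLp 2 x ∈ E' from hx)]
      rw [smul_eq_mul, mul_one]
      congr 3
    · rw [indicator_of_notMem hx, hf, indicator_of_notMem (show WithLp.toLp 2 x ∉ E' from hx)]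
      rw [smul_zero]
  calc ∫⁻ ξ, ‖b3F E ξ‖ₑ ^ 2 = ∫⁻ ξ : Fin m → ℝ, ‖𝓕 f (WithLp.toLp 2 ξ)‖ₑ ^ 2 := by
        simp only [hkey]
    _ = ∫⁻ w, ‖𝓕 f w‖ₑ ^ 2 := hp.lintegral_comp_emb hemb (fun w => ‖𝓕 f w‖ₑ ^ 2)
    _ < ∞ := hFin2

/-- polar-like coordinates -/
theorem b3_polar {n : ℕ} {G : (Fin (n + 1) → ℝ) → ℝ≥0∞} (hG : Measurable G)
    (hfin : ∫⁻ ξ, G ξ < ∞) :
    ∀ᵐ a : Fin n → ℝ, ∫⁻ σ : ℝ, ENNReal.ofReal (|σ| ^ n) * G (Fin.cons σ (σ • a)) < ∞ := by
  have hcons : Measurable fun p : ℝ × (Fin n → ℝ) => (Fin.cons p.1 p.2 : Fin (n + 1) → ℝ) := by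
    rw [measurable_pi_iff]
    intro i
    refine Fin.cases ?_ (fun j => ?_) i
    · exact measurable_fst
    · exact (measurable_pi_apply j).comp measurable_snd
  have h1 : ∫⁻ ξ, G ξ = ∫⁻ σ : ℝ, ∫⁻ b : Fin n → ℝ, G (Fin.cons σ b) := by
    have hvp := (volume_preserving_piFinSuccAbove (fun _ : Fin (n + 1) => ℝ) 0).symm
    rw [← hvp.lintegral_comp hG, Measure.volume_eq_prod, lintegral_prod]
    · congr 1
      funext σ
      congr 1
      funext b
      congr 1
      simp only [MeasurableEquiv.piFinSuccAbove]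
      funext i
      refine Fin.cases ?_ (fun j => ?_) i <;> simp [Fin.consEquiv]
    · exact (hG.comp hvp.measurable).aemeasurable
  have hsm : Measurable fun p : ℝ × (Fin n → ℝ) =>
      (Fin.cons p.1 (p.1 • p.2) : Fin (n + 1) → ℝ) :=
    hcons.comp (measurable_fst.prodMk (measurable_fst.smul measurable_snd))
  have h2 : ∀ σ : ℝ, σ ≠ 0 → ∫⁻ b : Fin n → ℝ, G (Fin.cons σ b) =
      ∫⁻ a : Fin n → ℝ, ENNReal.ofReal (|σ| ^ n) * G (Fin.cons σ (σ • a)) := by
    intro σ hσ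
    have hg : Measurable fun b : Fin n → ℝ => G (Fin.cons σ b) :=
      hG.comp (hcons.comp (measurable_const.prodMk measurable_id))
    have hs : Measurable fun a : Fin n → ℝ => σ • a := measurable_const_smul σ
    have h0 : ∫⁻ a : Fin n → ℝ, ENNReal.ofReal (|σ| ^ n) * G (Fin.cons σ (σ • a)) =
        ENNReal.ofReal (|σ| ^ n) * ∫⁻ a : Fin n → ℝ, G (Fin.cons σ (σ • a)) :=
      lintegral_const_mul _ (hg.comp hs)
    rw [h0]
    have h3 : ∫⁻ a : Fin n → ℝ, G (Fin.cons σ (σ • a)) =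
        ∫⁻ b, G (Fin.cons σ b) ∂(Measure.map (fun a : Fin n → ℝ => σ • a) volume) :=
      (lintegral_map hg hs).symm
    rw [h3, Measure.map_addHaar_smul volume hσ, lintegral_smul_measure, smul_eq_mul,
      ← mul_assoc, ← ENNReal.ofReal_mul (by positivity)]
    have h4 : |σ| ^ n * |(σ ^ Module.finrank ℝ (Fin n → ℝ))⁻¹| = 1 := by
      rw [Module.finrank_fin_fun, abs_inv, abs_pow]
      exact mul_inv_cancel₀ (pow_ne_zero _ (abs_ne_zero.2 hσ))
    rw [h4, ENNReal.ofReal_one, one_mul]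
  have hH : Measurable fun p : ℝ × (Fin n → ℝ) =>
      ENNReal.ofReal (|p.1| ^ n) * G (Fin.cons p.1 (p.1 • p.2)) :=
    ((measurable_fst.abs.pow_const n).ennreal_ofReal).mul (hG.comp hsm)
  have h5 : ∫⁻ σ : ℝ, ∫⁻ a : Fin n → ℝ, ENNReal.ofReal (|σ| ^ n) * G (Fin.cons σ (σ • a)) < ∞ := by
    have : ∫⁻ σ : ℝ, ∫⁻ a : Fin n → ℝ, ENNReal.ofReal (|σ| ^ n) * G (Fin.cons σ (σ • a)) =
        ∫⁻ σ : ℝ, ∫⁻ b : Fin n → ℝ, G (Fin.cons σ b) := by
      refine lintegral_congr_ae ?_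
      have h0 : ∀ᵐ σ : ℝ, σ ≠ 0 := by
        rw [ae_iff]
        simp
      filter_upwards [h0] with σ hσ
      exact (h2 σ hσ).symm
    rw [this, ← h1]
    exact hfin
  rw [lintegral_lintegral_swap hH.aemeasurable] at h5
  have hm : Measurable fun a : Fin n → ℝ =>
      ∫⁻ σ : ℝ, ENNReal.ofReal (|σ| ^ n) * G (Fin.cons σ (σ • a)) :=
    Measurable.lintegral_prod_left' hH
  exact ae_lt_top hm h5.ne

/-- Row B3. -/
theorem ae_direction {n : ℕ} (hn : 2 ≤ n) {E : Set (Fin (n + 1) → ℝ)} (hE : MeasurableSet E)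
    (hb : Bornology.IsBounded E) :
    ∀ᵐ a : Fin n → ℝ, Integrable
      (fun σ : ℝ => σ ^ 2 * ‖chf ((volume.restrict E).map (lform a)) σ‖ ^ 2) := by
  have hv : volume E ≠ ∞ := hb.measure_lt_top.ne
  have hc := b3_cont (E := E) hv
  have hGm : Measurable fun ξ : Fin (n + 1) → ℝ => ‖b3F E ξ‖ₑ ^ 2 :=
    (hc.measurable.enorm).pow_const 2
  filter_upwards [b3_polar hGm (b3_L2 hE hv)] with a ha
  simp only [b3_chf]
  have hcs : Continuous fun σ : ℝ => (Fin.cons σ (σ • a) : Fin (n + 1) → ℝ) := by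
    refine continuous_pi fun i => ?_
    refine Fin.cases ?_ (fun j => ?_) i
    · exact continuous_id
    · exact continuous_id.mul continuous_const
  have hcc : Continuous fun σ : ℝ => ‖b3F E (Fin.cons σ (σ • a))‖ := (hc.comp hcs).norm
  have hI : Integrable fun σ : ℝ => |σ| ^ n * ‖b3F E (Fin.cons σ (σ • a))‖ ^ 2 := by
    refine ⟨((continuous_abs.pow n).mul (hcc.pow 2)).aestronglyMeasurable, ?_⟩
    have : ∫⁻ σ : ℝ, ‖|σ| ^ n * ‖b3F E (Fin.cons σ (σ • a))‖ ^ 2‖ₑ =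
        ∫⁻ σ : ℝ, ENNReal.ofReal (|σ| ^ n) * ‖b3F E (Fin.cons σ (σ • a))‖ₑ ^ 2 := by
      congr 1
      funext σ
      rw [enorm_mul, enorm_pow ‖b3F E (Fin.cons σ (σ • a))‖, enorm_norm,
        Real.enorm_eq_ofReal (show (0 : ℝ) ≤ |σ| ^ n by positivity)]
    rw [HasFiniteIntegral, this]
    exact ha
  set C : ℝ := (volume E).toReal with hC
  have hJ : Integrable ((Icc (-1 : ℝ) 1).indicator fun _ => C ^ 2) :=
    (integrable_indicator_iff measurableSet_Icc).2 (integrableOn_const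
      (by simp [Real.volume_Icc]))
  refine Integrable.mono' (hJ.add hI) ((continuous_id.pow 2).mul (hcc.pow 2)).aestronglyMeasurable
    (Eventually.of_forall fun σ => ?_)
  rw [Real.norm_eq_abs, abs_of_nonneg (by positivity)]
  simp only [Pi.add_apply]
  have hle : ‖b3F E (Fin.cons σ (σ • a))‖ ^ 2 ≤ C ^ 2 :=
    pow_le_pow_left₀ (norm_nonneg _) (b3_le _) 2
  by_cases hσ : |σ| ≤ 1
  · rw [indicator_of_mem (show σ ∈ Icc (-1 : ℝ) 1 from abs_le.1 hσ)]
    have h1 : σ ^ 2 ≤ 1 := by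
      rw [← sq_abs]
      exact pow_le_one₀ (abs_nonneg _) hσ
    have h2 : σ ^ 2 * ‖b3F E (Fin.cons σ (σ • a))‖ ^ 2 ≤ 1 * C ^ 2 :=
      mul_le_mul h1 hle (by positivity) (by norm_num)
    have h3 : 0 ≤ |σ| ^ n * ‖b3F E (Fin.cons σ (σ • a))‖ ^ 2 := by positivity
    linarith
  · rw [indicator_of_notMem (show σ ∉ Icc (-1 : ℝ) 1 from fun h => hσ (abs_le.2 h)), zero_add]
    refine mul_le_mul_of_nonneg_right ?_ (by positivity)
    rw [← sq_abs]
    exact pow_le_pow_right₀ (not_le.1 hσ).le hn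

end Pool.Agent.Helper37.RQ
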